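import Pool.Agent.H82.CO.FS

set_option autoImplicit false

/-!
# Square roots of an element of odd order

`c` of odd order `q`, `c' = c ^ ((q + 1) / 2)`, so `c' ^ 2 = c`. A square root `x` of `c` commutes with `c`, hence
with `c'`, and `u = x c'⁻¹` has square `1` and lies in the centralizer of `c`. If the subgroup `A` of odd order
centralizes the centralizer of `c`, then `(u, a) ↦ u a` is injective: `(u a) ^ 2 = a ^ 2`.
-/

namespace Pool.Agent.H83.OR

open Finset Pool.Agent.H82.CO

variable {G : Type} [Group G] [Fintype G]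

open Classical in
private theorem rt_card (g : G) : rt g = ((univ.filter fun u : G => u ^ 2 = g).card : ℝ) := by
  rw [rt, Finset.sum_boole]

omit [Fintype G] in
private theorem root_sq {c : G} (hc : Odd (orderOf c)) : (c ^ ((orderOf c + 1) / 2)) ^ 2 = c := by
  obtain ⟨k, hk⟩ := hc
  have h1 : (orderOf c + 1) / 2 * 2 = orderOf c + 1 := by omega
  rw [← pow_mul, h1, pow_succ, pow_orderOf_eq_one, one_mul]

omit [Fintype G] in
private theorem comm_root {c x : G} (hx : x ^ 2 = c) (k : ℕ) : Commute x (c ^ k) := by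
  rw [← hx]
  exact ((Commute.refl x).pow_right 2).pow_right k

omit [Fintype G] in
private theorem unit_sq {c x : G} (hc : Odd (orderOf c)) (hx : x ^ 2 = c) :
    (x * (c ^ ((orderOf c + 1) / 2))⁻¹) ^ 2 = 1 := by
  have h : Commute x (c ^ ((orderOf c + 1) / 2))⁻¹ := (comm_root hx _).inv_right
  rw [h.mul_pow, inv_pow, root_sq hc, hx, mul_inv_cancel]

theorem rt_le_one {c : G} (hc : Odd (orderOf c)) : rt c ≤ rt (1 : G) := by
  classical
  rw [rt_card, rt_card]
  refine Nat.cast_le.2 (Finset.card_le_card_of_injOn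
    (fun x => x * (c ^ ((orderOf c + 1) / 2))⁻¹) ?_ ?_)
  · intro x hx
    have hx' : x ^ 2 = c := by simpa using hx
    simpa using unit_sq hc hx'
  · intro x _ y _ hxy
    exact mul_right_cancel hxy

theorem rt_mul_card_le {c : G} (hc : Odd (orderOf c)) (A : Subgroup G) (hA : Odd (Nat.card A))
    (h : ∀ a ∈ A, ∀ x ∈ Subgroup.centralizer ({c} : Set G), a * x = x * a) :
    rt c * (Nat.card A : ℝ) ≤ (Nat.card (Subgroup.centralizer ({c} : Set G)) : ℝ) := by
  classical
  have hcard : ∀ H : Subgroup G, Nat.card H = (univ.filter fun u : G => u ∈ H).card := by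
    intro H
    rw [Nat.card_eq_fintype_card, Fintype.card_subtype]
  rw [rt_card, hcard, hcard, ← Nat.cast_mul, ← Finset.card_product]
  have hcc : c ∈ Subgroup.centralizer ({c} : Set G) := by
    rw [Subgroup.mem_centralizer_singleton_iff]
  have hxc : ∀ x : G, x ^ 2 = c → x * (c ^ ((orderOf c + 1) / 2))⁻¹ ∈
      Subgroup.centralizer ({c} : Set G) := by
    intro x hx
    refine Subgroup.mul_mem _ ?_ (Subgroup.inv_mem _ (Subgroup.pow_mem _ hcc _))
    rw [Subgroup.mem_centralizer_singleton_iff]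
    have h1 := comm_root hx 1
    rw [pow_one] at h1
    exact h1.eq
  refine Nat.cast_le.2 (Finset.card_le_card_of_injOn
    (fun p : G × G => p.1 * (c ^ ((orderOf c + 1) / 2))⁻¹ * p.2) ?_ ?_)
  · intro p hp
    have hp' : p.1 ^ 2 = c ∧ p.2 ∈ A := by simpa using hp
    have h2 : p.2 ∈ Subgroup.centralizer ({c} : Set G) := by
      rw [Subgroup.mem_centralizer_singleton_iff]
      have h3 := h p.2 hp'.2 c hcc
      exact h3
    have h4 := Subgroup.mul_mem _ (hxc p.1 hp'.1) h2
    simpa using h4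
  · intro p hp p' hp' hpp
    have hq : p.1 ^ 2 = c ∧ p.2 ∈ A := by simpa using hp
    have hq' : p'.1 ^ 2 = c ∧ p'.2 ∈ A := by simpa using hp'
    have hpp' : p.1 * (c ^ ((orderOf c + 1) / 2))⁻¹ * p.2 =
        p'.1 * (c ^ ((orderOf c + 1) / 2))⁻¹ * p'.2 := hpp
    have hsq : ∀ r : G × G, r.1 ^ 2 = c → r.2 ∈ A →
        (r.1 * (c ^ ((orderOf c + 1) / 2))⁻¹ * r.2) ^ 2 = r.2 ^ 2 := by
      intro r hr hrA
      have hcomm : Commute (r.1 * (c ^ ((orderOf c + 1) / 2))⁻¹) r.2 :=
        (h r.2 hrA _ (hxc r.1 hr)).symm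
      rw [hcomm.mul_pow, unit_sq hc hr, one_mul]
    have h5 : p.2 ^ 2 = p'.2 ^ 2 := by
      rw [← hsq p hq.1 hq.2, ← hsq p' hq'.1 hq'.2, hpp']
    have hcop : (Nat.card A).Coprime 2 := hA.coprime_two_right
    have h6 : (⟨p.2, hq.2⟩ : A) = ⟨p'.2, hq'.2⟩ := by
      apply (powCoprime hcop).injective
      apply Subtype.ext
      exact h5
    have h7 : p.2 = p'.2 := congrArg Subtype.val h6
    rw [h7] at hpp'
    have h8 : p.1 = p'.1 := mul_right_cancel (mul_right_cancel hpp')
    exact Prod.ext h8 h7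

end Pool.Agent.H83.OR
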